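import Mathlib

/-! Computing permanents by dynamic programming over sets of columns, and recovering the
distribution of a weight from a Kronecker substitution. -/

namespace Pool.Agent.Helper113_perm

open Finset

/-- Tables indexed by the subsets of `{0, ..., d-1}`. -/
def Tab : ℕ → Type
  | 0 => ℕ
  | d + 1 => Tab d × Tab d

def ones : (d : ℕ) → Tab d
  | 0 => (1 : ℕ)
  | d + 1 => (ones d, ones d)

def add : (d : ℕ) → Tab d → Tab d → Tab d
  | 0, a, b => Nat.add a b
  | d + 1, a, b => (add d a.1 b.1, add d a.2 b.2)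

def smul (c : ℕ) : (d : ℕ) → Tab d → Tab d
  | 0, a => Nat.mul c a
  | d + 1, a => (smul c d a.1, smul c d a.2)

def mulLin (r : ℕ → ℕ) : (d : ℕ) → Tab d → Tab d
  | 0, _ => (0 : ℕ)
  | d + 1, a => (mulLin r d a.1, add d (mulLin r d a.2) (smul (r d) d a.1))

def top : (d : ℕ) → Tab d → ℕ
  | 0, a => a
  | d + 1, a => top d a.2

def ev : (d : ℕ) → Tab d → Finset ℕ → ℕ
  | 0, a, _ => a
  | d + 1, a, S => if d ∈ S then ev d a.2 S else ev d a.1 S

theorem ev_ones (d : ℕ) (S : Finset ℕ) : ev d (ones d) S = 1 := by
  induction d with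
  | zero => rfl
  | succ d ih => simp [ev, ones, ih]

theorem ev_add (d : ℕ) (a b : Tab d) (S : Finset ℕ) :
    ev d (add d a b) S = ev d a S + ev d b S := by
  induction d with
  | zero => rfl
  | succ d ih => simp only [ev, add, ih]; split_ifs <;> rfl

theorem ev_smul (c d : ℕ) (a : Tab d) (S : Finset ℕ) :
    ev d (smul c d a) S = c * ev d a S := by
  induction d with
  | zero => rfl
  | succ d ih => simp only [ev, smul, ih]; split_ifs <;> rfl

theorem ev_congr (d : ℕ) (a : Tab d) (S T : Finset ℕ) (h : ∀ i < d, i ∈ S ↔ i ∈ T) :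
    ev d a S = ev d a T := by
  induction d with
  | zero => rfl
  | succ d ih =>
    have h' : ∀ i < d, i ∈ S ↔ i ∈ T := fun i hi => h i (by omega)
    simp only [ev, h d (by omega), ih _ h']

theorem ev_top (d : ℕ) (a : Tab d) (S : Finset ℕ) (h : ∀ i < d, i ∈ S) :
    ev d a S = top d a := by
  induction d with
  | zero => rfl
  | succ d ih =>
    simp only [ev, top, h d (by omega), if_true]
    exact ih _ fun i hi => h i (by omega)

theorem ev_mulLin (r : ℕ → ℕ) (d : ℕ) (a : Tab d) (S : Finset ℕ) :
    ev d (mulLin r d a) S = ∑ j ∈ S.filter (· < d), r j * ev d a (S.erase j) := by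
  induction d with
  | zero => simp [ev, mulLin]
  | succ d ih =>
    by_cases hd : d ∈ S
    · have hS : S.filter (· < d + 1) = insert d (S.filter (· < d)) := by
        ext x; simp only [mem_filter, mem_insert]; constructor
        · rintro ⟨hx, hlt⟩
          rcases Nat.lt_succ_iff_lt_or_eq.1 hlt with h | h
          · exact Or.inr ⟨hx, h⟩
          · exact Or.inl h
        · rintro (rfl | ⟨hx, h⟩)
          · exact ⟨hd, by omega⟩
          · exact ⟨hx, by omega⟩
      rw [hS, sum_insert (by simp)]
      simp only [ev, mulLin, hd, if_true, ev_add, ev_smul, ih]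
      rw [add_comm]
      congr 1
      · have : d ∉ S.erase d := by simp
        simp only [this, if_false]
        congr 1
        apply ev_congr
        intro i hi
        simp only [mem_erase]
        constructor
        · intro h; exact ⟨by omega, h⟩
        · intro h; exact h.2
      · apply sum_congr rfl
        intro j hj
        have hjd : j < d := (mem_filter.1 hj).2
        have : d ∈ S.erase j := mem_erase.2 ⟨by omega, hd⟩
        simp only [this, if_true]
    · have hS : S.filter (· < d + 1) = S.filter (· < d) := by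
        ext x; simp only [mem_filter]; constructor
        · rintro ⟨hx, hlt⟩
          refine ⟨hx, ?_⟩
          rcases Nat.lt_succ_iff_lt_or_eq.1 hlt with h | h
          · exact h
          · exact absurd (h ▸ hx) hd
        · rintro ⟨hx, h⟩; exact ⟨hx, by omega⟩
      rw [hS]
      simp only [ev, mulLin, hd, if_false, ih]
      apply sum_congr rfl
      intro j hj
      have : d ∉ S.erase j := fun h => hd (mem_of_mem_erase h)
      simp only [this, if_false]

/-- Row expansion over sets of columns. -/
def F {α : Type} [DecidableEq α] : List (α → ℕ) → Finset α → ℕ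
  | [], _ => 1
  | r :: rs, S => ∑ j ∈ S, r j * F rs (S.erase j)

def dp (n : ℕ) : List (ℕ → ℕ) → Tab n
  | [] => ones n
  | r :: rs => mulLin r n (dp n rs)

theorem ev_dp (n : ℕ) (rows : List (ℕ → ℕ)) (S : Finset ℕ) (hS : ∀ i ∈ S, i < n) :
    ev n (dp n rows) S = F rows S := by
  induction rows generalizing S with
  | nil => exact ev_ones n S
  | cons r rs ih =>
    rw [dp, ev_mulLin, F, filter_true_of_mem hS]
    apply sum_congr rfl
    intro j _
    rw [ih _ fun i hi => hS i (mem_of_mem_erase hi)]

theorem F_map {n : ℕ} (rows : List (ℕ → ℕ)) (S : Finset (Fin n)) :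
    F (rows.map fun r => fun j : Fin n => r j) S = F rows (S.map Fin.valEmbedding) := by
  induction rows generalizing S with
  | nil => rfl
  | cons r rs ih =>
    simp only [List.map_cons, F, sum_map]
    apply sum_congr rfl
    intro j _
    rw [ih, map_erase]
    rfl

theorem F_ofFn {α : Type} [DecidableEq α] [Fintype α] (k : ℕ) (M : Fin k → α → ℕ)
    (S : Finset α) :
    F (List.ofFn M) S =
      ∑ f : Fin k → α, if Function.Injective f ∧ ∀ i, f i ∈ S then ∏ i, M i (f i) else 0 := by
  induction k generalizing S with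
  | zero =>
    simp [F, Function.injective_of_subsingleton]
  | succ k ih =>
    rw [List.ofFn_succ, F]
    rw [← (Fin.consEquiv fun _ : Fin (k + 1) => α).sum_comp, Fintype.sum_prod_type]
    have : ∀ j : α, (∑ g : Fin k → α,
        if Function.Injective ((Fin.consEquiv fun _ : Fin (k + 1) => α) (j, g)) ∧
            ∀ i, (Fin.consEquiv fun _ : Fin (k + 1) => α) (j, g) i ∈ S then
          ∏ i, M i ((Fin.consEquiv fun _ : Fin (k + 1) => α) (j, g) i) else 0) =
        if j ∈ S then M 0 j * F (List.ofFn fun i => M i.succ) (S.erase j) else 0 := by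
      intro j
      rw [ih]
      split_ifs with hj
      · rw [mul_sum]
        apply sum_congr rfl
        intro g _
        have e : (Fin.consEquiv fun _ : Fin (k + 1) => α) (j, g) = Fin.cons j g := rfl
        rw [e]
        have hiff : (Function.Injective (Fin.cons j g : Fin (k + 1) → α) ∧
            ∀ i, (Fin.cons j g : Fin (k + 1) → α) i ∈ S) ↔
            (Function.Injective g ∧ ∀ i, g i ∈ S.erase j) := by
          rw [Fin.cons_injective_iff, Fin.forall_fin_succ]
          simp only [Fin.cons_zero, Fin.cons_succ, mem_erase, Set.mem_range, not_exists]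
          constructor
          · rintro ⟨⟨h1, h2⟩, -, h4⟩; exact ⟨h2, fun i => ⟨h1 i, h4 i⟩⟩
          · rintro ⟨h2, h⟩; exact ⟨⟨fun i => (h i).1, h2⟩, hj, fun i => (h i).2⟩
        simp only [hiff, Fin.prod_univ_succ, Fin.cons_zero, Fin.cons_succ, mul_ite, mul_zero]
      · apply sum_eq_zero
        intro g _
        rw [if_neg]
        rintro ⟨-, h⟩
        exact hj (h 0)
    simp only [this]
    rw [← sum_filter]
    apply sum_congr _ (fun _ _ => rfl)
    ext x; simp

/-- The permanent by dynamic programming. -/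
theorem perm_sum_eq {n : ℕ} (rows : List (ℕ → ℕ)) (c : Fin n → Fin n → ℕ)
    (h : rows.map (fun r => fun j : Fin n => r j) = List.ofFn c) :
    ∑ σ : Equiv.Perm (Fin n), ∏ i, c i (σ i) = top n (dp n rows) := by
  have h1 : top n (dp n rows) = F rows ((univ : Finset (Fin n)).map Fin.valEmbedding) := by
    rw [← ev_dp n rows _ (by simp)]
    rw [ev_top]
    intro i hi
    simp only [mem_map, mem_univ, true_and, Fin.valEmbedding_apply]
    exact ⟨⟨i, hi⟩, rfl⟩
  rw [h1, ← F_map, h, F_ofFn]
  apply Fintype.sum_of_injective (fun σ : Equiv.Perm (Fin n) => (σ : Fin n → Fin n))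
  · exact DFunLike.coe_injective
  · intro f hf
    rw [if_neg]
    rintro ⟨hinj, -⟩
    exact hf ⟨Equiv.ofBijective f (Finite.injective_iff_bijective.1 hinj), rfl⟩
  · intro σ
    rw [if_pos ⟨σ.injective, fun i => mem_univ _⟩]

/-- Uniqueness of base-`B` digits. -/
theorem digits_unique (B : ℕ) (m : ℕ) (f g : ℕ → ℕ) (hf : ∀ k, f k < B) (hg : ∀ k, g k < B)
    (h : ∑ k ∈ range m, f k * B ^ k = ∑ k ∈ range m, g k * B ^ k) : ∀ k < m, f k = g k := by
  induction m generalizing f g with
  | zero => intro k hk; omega
  | succ m ih =>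
    have hB : 0 < B := lt_of_le_of_lt (Nat.zero_le _) (hf 0)
    rw [sum_range_succ', sum_range_succ'] at h
    simp only [pow_zero, mul_one, pow_succ, ← mul_assoc, ← sum_mul] at h
    have h0 : f 0 = g 0 := by
      have := congrArg (· % B) h
      simpa [Nat.add_mod, Nat.mul_mod_left, Nat.mod_eq_of_lt (hf 0), Nat.mod_eq_of_lt (hg 0)]
        using this
    have h1 : ∑ k ∈ range m, f (k + 1) * B ^ k = ∑ k ∈ range m, g (k + 1) * B ^ k := by
      rw [h0] at h
      exact Nat.eq_of_mul_eq_mul_right hB (Nat.add_right_cancel h)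
    intro k hk
    rcases k with _ | k
    · exact h0
    · exact ih (fun k => f (k + 1)) (fun k => g (k + 1)) (fun k => hf _) (fun k => hg _) h1 k
        (by omega)

/-- If two families of exponents have the same Kronecker sum in a base exceeding the size of
the index type, then any function of the exponents has the same sum over both families. -/
theorem sum_eq_of_kronecker {ι : Type} [Fintype ι] [DecidableEq ι] {A : Type} [AddCommMonoid A]
    (B : ℕ) (hB : Fintype.card ι < B) (u v : ι → ℕ)
    (h : ∑ i, B ^ u i = ∑ i, B ^ v i) (φ : ℕ → A) : ∑ i, φ (u i) = ∑ i, φ (v i) := by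
  obtain ⟨m, hm⟩ : ∃ m, ∀ i, u i < m ∧ v i < m := by
    refine ⟨(∑ i, u i) + (∑ i, v i) + 1, fun i => ?_⟩
    have h1 : u i ≤ ∑ i, u i := single_le_sum (f := u) (fun _ _ => Nat.zero_le _) (mem_univ i)
    have h2 : v i ≤ ∑ i, v i := single_le_sum (f := v) (fun _ _ => Nat.zero_le _) (mem_univ i)
    omega
  have key : ∀ (A' : Type) [AddCommMonoid A'] (w : ι → ℕ) (_ : ∀ i, w i < m) (ψ : ℕ → A'),
      ∑ i, ψ (w i) = ∑ k ∈ range m, (#{i | w i = k}) • ψ k := by
    intro A' _ w hw ψ
    rw [← sum_fiberwise_of_maps_to (g := w) (t := range m) (fun i _ => mem_range.2 (hw i))]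
    apply sum_congr rfl
    intro k _
    rw [sum_congr rfl (g := fun _ => ψ k)]
    · simp
    · intro i hi; rw [(mem_filter.1 hi).2]
  have hu := key ℕ u (fun i => (hm i).1) (fun k => B ^ k)
  have hv := key ℕ v (fun i => (hm i).2) (fun k => B ^ k)
  rw [hu, hv] at h
  simp only [smul_eq_mul] at h
  have hdig := digits_unique B m (fun k => #{i | u i = k}) (fun k => #{i | v i = k})
    (fun k => lt_of_le_of_lt (card_le_univ _) hB) (fun k => lt_of_le_of_lt (card_le_univ _) hB) h
  rw [key A u (fun i => (hm i).1) φ, key A v (fun i => (hm i).2) φ]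
  apply sum_congr rfl
  intro k hk
  rw [hdig k (mem_range.1 hk)]

end Pool.Agent.Helper113_perm
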